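import Pool.Agent.Q213.BaseTree

/-!
# Trees which can be specialized without adding reals but do not embed into `ω₁`-trees

Q1 asks whether ZFC proves that there is an `(ω₁, ≤ ℵ₁)`-Aronszajn tree which can be specialized
without adding reals but does not embed into any `ω₁`-tree. The answer is yes.

For any `(ω₁, ≤ ℵ₁)`-Aronszajn tree `A` let `S` be the binary tree of height `ω` with `ℵ₁` branches
(at least one through each node) and a copy of `A` on top of each of these branches. The tree `S`
does not embed into any `ω₁`-tree `T`: the images of the nodes of finite height lie below some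
level `δ < ω₁`, and two of the branches would lead to the same node of the countable level `δ`.
The tree `S` has a strictly increasing map to the ordinal sum of `ω` and `A`, and so, in any outer
model, `S` is special if and only if `A` is. Hence `S` can be specialized without adding reals if and
only if `A` can. There are special trees `A`, and then `S` is special, too.
-/

set_option autoImplicit false

open Ordinal Set Cardinal

namespace Pool.Agent.Results.MP_6e75db_lc.SpecialNotEmbeddable

open Pool.Agent.H883R3 Pool.Agent.Q213.CombTree

universe u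

/-- **Main theorem.** There is a special `(ω₁, ≤ ℵ₁)`-Aronszajn tree which does not embed into any
`ω₁`-tree. Moreover, for every `(ω₁, ≤ ℵ₁)`-Aronszajn tree `A` there is an `(ω₁, ≤ ℵ₁)`-Aronszajn tree
`S` which contains a copy of `A` and has a strictly increasing map to the ordinal sum of `ω` and
`A`, and which does not embed into any `ω₁`-tree. -/
theorem result :
    (∃ (S : Type) (_ : PartialOrder S) (_ : TreeOrder S), IsWideAronszajn S ∧
      IsSpecial (univ : Set S) ∧
      ∀ (T : Type u) [PartialOrder T] [TreeOrder T], IsOmegaOneTree T → ¬ Embeds S T) ∧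
    ∀ (A : Type) [PartialOrder A] [TreeOrder A], IsWideAronszajn A →
      ∃ (S : Type) (_ : PartialOrder S) (_ : TreeOrder S), IsWideAronszajn S ∧
        Embeds A S ∧ (∃ π : S → ℕ ⊕ₗ A, StrictMono π) ∧
        ∀ (T : Type u) [PartialOrder T] [TreeOrder T], IsOmegaOneTree T → ¬ Embeds S T := by
  obtain ⟨r, hr, hd⟩ := exists_branches
  have main : ∀ (A : Type) [PartialOrder A] [TreeOrder A], IsWideAronszajn A →
      IsWideAronszajn (Comb r A) ∧ Embeds A (Comb r A) ∧
        ∀ (T : Type u) [PartialOrder T] [TreeOrder T], IsOmegaOneTree T →
          ¬ Embeds (Comb r A) T := by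
    intro A _ _ hA
    obtain ⟨a0, -, -⟩ := hA.normal.root
    obtain ⟨ξ, -⟩ := hd []
    exact ⟨isWideAronszajn hr hd hA, embeds_comb ξ, fun T _ _ hT => not_embeds hr a0 hT⟩
  refine ⟨?_, ?_⟩
  · obtain ⟨h1, -, h2⟩ := main _ Pool.Agent.Q213.BaseTree.isWideAronszajn_node
    exact ⟨_, inferInstance, inferInstance, h1,
      special_of_proj proj proj_strictMono Pool.Agent.Q213.BaseTree.isSpecial_node, h2⟩
  · intro A _ _ hA
    obtain ⟨h1, h2, h3⟩ := main A hA
    exact ⟨_, inferInstance, inferInstance, h1, h2, ⟨proj, proj_strictMono⟩, h3⟩

end Pool.Agent.Results.MP_6e75db_lc.SpecialNotEmbeddable
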